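import Pool.Graph.R_pool_sql_team_seeded_3997aac3.Results.MP_2b3a02_al.OptimalBounds
import Pool.Agent.KS7_39.D53.Low
import Pool.Agent.KS7_39.D53.Fin

/-!
# The optimal RDU bounds in every single rank `n ≥ 3`, and for single finite fields

The optimal bound for `GL_n` of commutative rings, of rings of stable rank one and of von Neumann
regular rings is determined for every single `n ≥ 3`: it is `8`, `8` and `4`. For every finite field
`K` with at least five elements and every `n ≥ 3` the optimal bound for `GL_n(K)` is exactly `4`. The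
lower bounds hold even if all `GL_n`-conjugates are allowed.
-/

set_option autoImplicit false

namespace Pool.Agent.Results.MP_2b3a02_al.EveryRank

open Module IntermediateField
open Pool.Agent.Results.MP_2b3a02_al.OptimalBounds (GLn En IsBoundGL VonNeumannRegular
  StableRankOne)
open Pool.Agent.Q21.RDU (PC Elem tv tv_val)

universe u v

/-- The weaker notion of a bound for `GL_n(R)`, in which all the `GL_n(R)`-conjugates of `σ` and
`σ⁻¹` are allowed as factors. -/
def IsWeakBoundGL (m n : ℕ) (R : Type u) [Ring R] : Prop :=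
  ∀ (σ : GLn n R) (k l i j : Fin n), k ≠ l → i ≠ j →
    ∃ L : List (GLn n R), L.length ≤ m ∧
      (∀ x ∈ L, ∃ τ : GLn n R, x = τ⁻¹ * σ * τ ∨ x = τ⁻¹ * σ⁻¹ * τ) ∧
      ((L.prod : GLn n R) : Matrix (Fin n) (Fin n) R) =
        1 + Matrix.single k l ((σ : Matrix (Fin n) (Fin n) R) i j)

/-- `m` is the optimal bound for `GL_n` of the rings in the class `C`, both for `E_n`-conjugates and
for arbitrary `GL_n`-conjugates. -/
def Optimal (n : ℕ) (C : ∀ (R : Type u) [Ring R], Prop) (m : ℕ) : Prop :=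
  IsLeast {m' : ℕ | ∀ (R : Type u) [Ring R], C R → IsBoundGL m' n R} m ∧
  IsLeast {m' : ℕ | ∀ (R : Type u) [Ring R], C R → IsWeakBoundGL m' n R} m

theorem weak {m n : ℕ} {R : Type u} [Ring R] (h : IsBoundGL m n R) : IsWeakBoundGL m n R := by
  intro σ k l i j hkl hij
  obtain ⟨L, h1, h2, h3⟩ := h σ k l i j hkl hij
  exact ⟨L, h1, fun x hx => (h2 x hx).imp fun τ h => h.2, h3⟩

theorem pc_iff {n : ℕ} {R : Type u} [Ring R] (σ : GLn n R) {k l : Fin n} (hkl : k ≠ l) (a : R)
    (m : ℕ) : PC (Elem (Fin n) R) σ m (tv k l hkl a) ↔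
      ∃ L : List (GLn n R), L.length ≤ m ∧
      (∀ x ∈ L, ∃ τ ∈ En n R, x = τ⁻¹ * σ * τ ∨ x = τ⁻¹ * σ⁻¹ * τ) ∧
      ((L.prod : GLn n R) : Matrix (Fin n) (Fin n) R) = 1 + Matrix.single k l a := by
  constructor
  · rintro ⟨L, h1, h2, h3⟩
    exact ⟨L, h1, h2, by rw [h3, tv_val]⟩
  · rintro ⟨L, h1, h2, h3⟩
    exact ⟨L, h1, h2, Units.ext (by rw [h3, tv_val])⟩

theorem pc_iff' {n : ℕ} {R : Type u} [Ring R] (σ : GLn n R) {k l : Fin n} (hkl : k ≠ l) (a : R)
    (m : ℕ) : PC (⊤ : Subgroup (GLn n R)) σ m (tv k l hkl a) ↔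
      ∃ L : List (GLn n R), L.length ≤ m ∧
      (∀ x ∈ L, ∃ τ : GLn n R, x = τ⁻¹ * σ * τ ∨ x = τ⁻¹ * σ⁻¹ * τ) ∧
      ((L.prod : GLn n R) : Matrix (Fin n) (Fin n) R) = 1 + Matrix.single k l a := by
  constructor
  · rintro ⟨L, h1, h2, h3⟩
    exact ⟨L, h1, fun x hx => (h2 x hx).imp fun τ h => h.2, by rw [h3, tv_val]⟩
  · rintro ⟨L, h1, h2, h3⟩
    exact ⟨L, h1, fun x hx => (h2 x hx).imp fun τ h => ⟨Subgroup.mem_top _, h⟩,
      Units.ext (by rw [h3, tv_val])⟩

/-- transport along an isomorphism of rings -/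
theorem transport {R : Type u} {S : Type v} [Ring R] [Ring S] (e : R ≃+* S) {m n : ℕ}
    (h : IsWeakBoundGL m n R) : IsWeakBoundGL m n S := by
  intro σ k l i j hkl hij
  let f : Matrix (Fin n) (Fin n) R ≃* Matrix (Fin n) (Fin n) S := (e.mapMatrix).toMulEquiv
  let F : GLn n R ≃* GLn n S := Units.mapEquiv f
  obtain ⟨L, h1, h2, h3⟩ := h (F.symm σ) k l i j hkl hij
  have hσ : F (F.symm σ) = σ := F.apply_symm_apply σ
  refine ⟨L.map F, by rw [List.length_map]; exact h1, ?_, ?_⟩
  · intro x hx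
    obtain ⟨y, hy, rfl⟩ := List.mem_map.1 hx
    obtain ⟨τ, h | h⟩ := h2 y hy
    · exact ⟨F τ, Or.inl (by rw [h, map_mul, map_mul, map_inv, hσ])⟩
    · exact ⟨F τ, Or.inr (by rw [h, map_mul, map_mul, map_inv, map_inv, hσ])⟩
  · rw [← map_list_prod]
    show ((L.prod : GLn n R) : Matrix (Fin n) (Fin n) R).map e = _
    rw [h3, Matrix.map_add e (fun x y => map_add e x y), Matrix.map_single,
      Matrix.map_one e (map_zero e) (map_one e)]
    congr 2
    show e (e.symm _) = _
    exact e.apply_symm_apply _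

/-- the lower bound `8` in every rank -/
theorem low8 (n : ℕ) (hn : 2 ≤ n) (m : ℕ)
    (h : IsWeakBoundGL m n (KS7_39.D53.RR (Fin n))) : 8 ≤ m := by
  haveI : Nontrivial (Fin n) := Fin.nontrivial_iff_two_le.2 hn
  obtain ⟨a, b, hab⟩ := exists_pair_ne (Fin n)
  have h1 := h KS7_39.D53.sg a b a b hab hab
  exact KS7_39.D53.low_R₀ ⊤ a b a b hab hab m ((pc_iff' KS7_39.D53.sg hab _ m).2 h1)

/-- the lower bound `4` for one field -/
theorem low4 {K : Type u} {L : Type v} [Field K] [Field L] [Algebra K L] [FiniteDimensional K L]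
    (n : ℕ) (hn : 2 ≤ n) (hf : finrank K L = n) (α : L) (hα : K⟮α⟯ = ⊤)
    (hN : ∀ s, 1 ≤ s → s ≤ 3 → Algebra.norm K α ^ s ≠ 1) (m : ℕ)
    (h : IsWeakBoundGL m n K) : 4 ≤ m := by
  haveI : Nontrivial (Fin n) := Fin.nontrivial_iff_two_le.2 hn
  obtain ⟨p, σ, hp, hdeg, hσ, hdet, i, j, hij, hne⟩ := KS7_39.D53.exists_mulMatrix hn hf α hα
  refine KS7_39.D53.low4 hp (by rw [hdeg, Fintype.card_fin]) σ hσ ?_ ?_ ?_ ⊤ i j hij hne m ?_
  · rw [hdet]; simpa using hN 1 le_rfl (by norm_num)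
  · rw [hdet]; exact hN 2 (by norm_num) (by norm_num)
  · rw [hdet]; exact hN 3 (by norm_num) le_rfl
  · exact (pc_iff' σ hij _ m).2 (h σ i j i j hij hij)

theorem four {R : Type u} [Ring R] (hR : VonNeumannRegular R) {n : ℕ} (hn : 3 ≤ n) :
    IsBoundGL 4 n R := by
  intro σ k l i j hkl hij
  obtain ⟨b, hb⟩ := hR ((σ : Matrix (Fin n) (Fin n) R) i j)
  exact (pc_iff σ hkl _ 4).1 (Pool.Agent.Q21.RDU.four_factors (by rwa [Fintype.card_fin]) σ hij hkl b hb)

theorem vnr_field (K : Type u) [Field K] : VonNeumannRegular K := by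
  intro a
  refine ⟨a⁻¹, ?_⟩
  by_cases ha : a = 0
  · rw [ha, mul_zero]
  · rw [mul_inv_cancel₀ ha, one_mul]

theorem local_RR (ι : Type) : IsLocalRing (KS7_39.D53.RR ι) := by
  haveI : Nontrivial (KS7_39.D53.RR ι) := by
    refine ⟨⟨0, 1, fun h => ?_⟩⟩
    have := congrArg TrivSqZeroExt.fst h
    rw [TrivSqZeroExt.fst_one, TrivSqZeroExt.fst_zero] at this
    exact zero_ne_one this
  refine IsLocalRing.of_nonunits_add ?_
  intro a b ha hb
  rw [mem_nonunits_iff, TrivSqZeroExt.isUnit_iff_isUnit_fst, isUnit_iff_ne_zero, not_not] at *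
  rw [TrivSqZeroExt.fst_add, ha, hb, add_zero]

/-- Let `n ≥ 3`.

(1) `8` is the optimal bound for `GL_n` of every class of rings which contains the finite commutative
local rings and consists of commutative rings and rings of stable rank one.

(2) `4` is the optimal bound for `GL_n` of every class of von Neumann regular rings which contains
some finite field with at least five elements.

(3) For every field `K` having an extension `L = K(α)` of degree `n` with `N(α)^s ≠ 1` for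
`s = 1, 2, 3`, and (4) for every finite field `K` with at least five elements, `4` is the optimal bound
for `GL_n(K)`. -/
theorem result (n : ℕ) (hn : 3 ≤ n) :
    (∀ C : ∀ (R : Type u) [Ring R], Prop,
      (∀ (R : Type u) [CommRing R] [IsLocalRing R] [Finite R], C R) →
      (∀ (R : Type u) [Ring R], C R → (∀ a b : R, a * b = b * a) ∨ StableRankOne R) →
      Optimal n C 8) ∧
    (∀ C : ∀ (R : Type u) [Ring R], Prop,
      (∃ (K : Type u) (_ : Field K), Finite K ∧ 5 ≤ Nat.card K ∧ C K) →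
      (∀ (R : Type u) [Ring R], C R → VonNeumannRegular R) →
      Optimal n C 4) ∧
    (∀ (K : Type u) (L : Type v) [Field K] [Field L] [Algebra K L] [FiniteDimensional K L] (α : L),
      finrank K L = n → K⟮α⟯ = ⊤ → (∀ s, 1 ≤ s → s ≤ 3 → Algebra.norm K α ^ s ≠ 1) →
      IsLeast {m : ℕ | IsBoundGL m n K} 4 ∧ IsLeast {m : ℕ | IsWeakBoundGL m n K} 4) ∧
    (∀ (K : Type u) [Field K] [Finite K], 5 ≤ Nat.card K →
      IsLeast {m : ℕ | IsBoundGL m n K} 4 ∧ IsLeast {m : ℕ | IsWeakBoundGL m n K} 4) := by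
  have hfin : ∀ (K : Type u) [Field K] [Finite K], 5 ≤ Nat.card K → ∀ m, IsWeakBoundGL m n K →
      4 ≤ m := by
    intro K _ _ hK m hm
    obtain ⟨L, _, _, _, α, hf, hα, hN⟩ := KS7_39.D53.exists_ext K hK (n := n) (by omega)
    exact low4 n (by omega) hf α hα hN m hm
  refine ⟨?_, ?_, ?_, ?_⟩
  · intro C hC1 hC2
    have up : ∀ (R : Type u) [Ring R], C R → IsBoundGL 8 n R := by
      intro R _ hR σ k l i j hkl hij
      rcases hC2 R hR with hc | hs
      · letI : CommRing R := { (inferInstance : Ring R) with mul_comm := hc }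
        exact (pc_iff σ hkl _ 8).1
          (Pool.Agent.Q21.RDU.eight_comm (by rwa [Fintype.card_fin]) σ hij hkl)
      · exact (pc_iff σ hkl _ 8).1
          (Pool.Agent.Q21.RDU.eight_sr hs (by rwa [Fintype.card_fin]) σ hij hkl)
    have low : ∀ m : ℕ, (∀ (R : Type u) [Ring R], C R → IsWeakBoundGL m n R) → 8 ≤ m := by
      intro m hm
      haveI := local_RR (Fin n)
      haveI : Finite (KS7_39.D53.RR (Fin n)) := by
        unfold KS7_39.D53.RR TrivSqZeroExt
        infer_instance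
      let e : ULift.{u} (KS7_39.D53.RR (Fin n)) ≃+* KS7_39.D53.RR (Fin n) := ULift.ringEquiv
      haveI : IsLocalRing (ULift.{u} (KS7_39.D53.RR (Fin n))) :=
        IsLocalRing.of_surjective' e.symm.toRingHom e.symm.surjective
      have h1 := hm (ULift.{u} (KS7_39.D53.RR (Fin n))) (hC1 _)
      exact low8 n (by omega) m (transport e h1)
    exact ⟨⟨up, fun m hm => low m fun R _ hR => weak (hm R hR)⟩,
      ⟨fun R _ hR => weak (up R hR), fun m hm => low m hm⟩⟩
  · intro C ⟨K, _, hKf, hK5, hCK⟩ hC2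
    haveI := hKf
    exact ⟨⟨fun R _ hR => four (hC2 R hR) hn, fun m hm => hfin K hK5 m (weak (hm K hCK))⟩,
      ⟨fun R _ hR => weak (four (hC2 R hR) hn), fun m hm => hfin K hK5 m (hm K hCK)⟩⟩
  · intro K L _ _ _ _ α hf hα hN
    exact ⟨⟨four (vnr_field K) hn, fun m hm => low4 n (by omega) hf α hα hN m (weak hm)⟩,
      ⟨weak (four (vnr_field K) hn), fun m hm => low4 n (by omega) hf α hα hN m hm⟩⟩
  · intro K _ _ hK
    exact ⟨⟨four (vnr_field K) hn, fun m hm => hfin K hK m (weak hm)⟩,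
      ⟨weak (four (vnr_field K) hn), fun m hm => hfin K hK m hm⟩⟩

end Pool.Agent.Results.MP_2b3a02_al.EveryRank
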